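import Mathlib
import Pool.Agent.H22.NonUnital

set_option autoImplicit false

namespace Pool.Agent.Results.MP_01baca_al.RadicalDiffPoly

open Pool.Agent.H22

/-- There are a nonzero associative algebra `R` over the rationals (an identity is not assumed),
generated by two elements `u`, `v`, and a derivation `d` of `R` with `d u = u` and `d v = 2 v`, such that `R` has
no nonzero nil two-sided ideals and every element of the differential polynomial ring
`S = R[x; d]` is quasi-regular (so `S`, which is not zero, is its own Jacobson radical). -/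
theorem result : ∃ (R : Type) (_ : NonUnitalRing R) (u v : R) (d : R →+ R)
    (S : Type) (_ : NonUnitalRing S) (e : (ℕ →₀ R) ≃+ S),
    Nontrivial R ∧ IsRatGenerated u v ∧ d u = u ∧ d v = 2 • v ∧
    (∀ a b : R, d (a * b) = d a * b + a * d b) ∧
    (∀ I : TwoSidedIdeal R, (∀ a ∈ I, ∃ n, pw a n = 0) → I = ⊥) ∧
    IsDiffPoly d e ∧
    ∀ s : S, IsQuasiregular s :=
  ⟨RT, inferInstance, gT false, gT true, dP, SP, inferInstance, eP, RT_nontrivial,
    ⟨inferInstance, inferInstance, inferInstance, RT_generated⟩, dP_gT_false, dP_gT_true, dP_mul,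
    RT_no_nil, eP_isDiffPoly, quasi⟩

end Pool.Agent.Results.MP_01baca_al.RadicalDiffPoly
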